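import Pool.Agent.H91.TateDominant

set_option autoImplicit false

/-!
Tate classes on powers of abelian varieties over finite fields with a dominant pair of slopes:
they are generated by divisor classes and Weil classes.
-/

namespace Pool.Agent.Results.MP_0fca13_ag.DominantSlope

/-- `y` is a product of two Frobenius eigenclasses of degree one whose eigenvalues multiply to `Q`
(`Q = q ^ w`): a decomposable Tate class of degree two. -/
def IsPairClass {C W A : Type*} [Field C] [AddCommGroup W] [Module C W] [Ring A] [Algebra C A]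
    (F : W →ₗ[C] W) (ι : W →ₗ[C] A) (Q : C) (y : A) : Prop :=
  ∃ (e e' : W) (α α' : C), F e = α • e ∧ F e' = α' • e' ∧ α * α' = Q ∧ y = ι e * ι e'

/-- `y` is a Weil class: there are a subfield `K'` of `E`, an embedding `τ` of `K'` in `C` and a list
`t` of pairs (embedding, eigenvector), whose embeddings are, without repetition, exactly the embeddings
of `E` extending `τ`; the vector paired with `φ` is an eigenvector of `F` for `φ π`; no two of the
embeddings are complex conjugate (their values at `π` never multiply to `Q = q ^ w`, so `K'` is not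
totally real); the product of the `φ π`, that is the image under `τ` of the norm of `π` to `K'`, is
`Q ^ (t.length / 2)` up to a root of unity; and `y` is the product of the eigenclasses. -/
def IsWeilClass {E C W A : Type*} [Field E] [NumberField E] [Field C] [AddCommGroup W] [Module C W]
    [Ring A] [Algebra C A] (π : E) (F : W →ₗ[C] W) (ι : W →ₗ[C] A) (Q : C) (y : A) : Prop :=
  ∃ (K' : IntermediateField ℚ E) (τ : K' →+* C) (t : List ((E →+* C) × W)),
    (t.map Prod.fst).Nodup ∧
    (∀ φ : E →+* C, φ ∈ t.map Prod.fst ↔ ∀ z : K', φ z = τ z) ∧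
    (∀ x ∈ t, F x.2 = (x.1 π) • x.2) ∧
    (∀ x ∈ t, ∀ x' ∈ t, x.1 π * x'.1 π ≠ Q) ∧
    (∃ M : ℕ, 1 ≤ M ∧ ((t.map (fun x => x.1 π)).prod) ^ (2 * M) = Q ^ (t.length * M)) ∧
    y = (t.map (fun x => ι x.2)).prod

/-- **Tate classes in the presence of a dominant pair of slopes.**
`q = p ^ a`; `π` is an algebraic integer generating the number field `E` all of whose complex absolute
values are `q ^ (w / 2)`; `v` is an additive valuation with `v q = 1` on the algebraically closed field
`K`, and the rational number `slope φ = v (φ π)` is the slope of `π` at the embedding `φ : E → K`.  The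
slope at `φ0` is different from `w / 2` and dominant: the sum of `|slope φ - w / 2|` over all embeddings
is at most `4 |slope φ0 - w / 2|` (as `φ0` and its complex conjugate contribute
`2 |slope φ0 - w / 2|`, this says that all other conjugate pairs together contribute at most as much as
this one).  `F` is a diagonalisable operator on `W` with eigenvalues among the conjugates of `π`, `A` is
an algebra generated by `ι W` with `ι x * ι y = s • (ι y * ι x)` (for instance the exterior algebra of
`W`), `Φ` is the algebra endomorphism induced by `F`.  Then every solution of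
`Φ ^ N x = q ^ (N * m) x` with `N ≥ 1` lies in the subalgebra generated by the pair classes and, when
the inequality is an equality, the Weil classes. -/
theorem result
    (p a q w : ℕ) (hp : p.Prime) (hq : q = p ^ a)
    (E : Type*) [Field E] [NumberField E] (π : E) (hgen : IntermediateField.adjoin ℚ {π} = ⊤)
    (hint : IsIntegral ℤ π) (habs : ∀ φ : E →+* ℂ, ‖φ π‖ ^ 2 = (q : ℝ) ^ w)
    (K : Type*) [Field K] [CharZero K] [IsAlgClosed K]
    (v : AddValuation K (WithTop ℚ)) (hv : v (q : K) = 1)
    (slope : (E →+* K) → ℚ) (hslope : ∀ φ : E →+* K, v (φ π) = ((slope φ : ℚ) : WithTop ℚ))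
    (φ0 : E →+* K) (hφ0 : slope φ0 ≠ (w : ℚ) / 2)
    (hdom : ∑ φ, |slope φ - (w : ℚ) / 2| ≤ 4 * |slope φ0 - (w : ℚ) / 2|)
    (C : Type*) [Field C] [CharZero C] [IsAlgClosed C]
    (W : Type*) [AddCommGroup W] [Module C W] (F : W →ₗ[C] W)
    (hF : ⨆ φ : E →+* C, Module.End.eigenspace F (φ π) = ⊤)
    (A : Type*) [Ring A] [Algebra C A] (ι : W →ₗ[C] A)
    (s : C) (hcomm : ∀ x y, ι x * ι y = s • (ι y * ι x))
    (hadj : Algebra.adjoin C (Set.range ι) = ⊤)
    (Φ : A →ₐ[C] A) (hΦ : ∀ x, Φ (ι x) = ι (F x))
    (N m : ℕ) (hN : 1 ≤ N) (x : A) (hx : (⇑Φ)^[N] x = (q : C) ^ (N * m) • x) :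
    x ∈ Algebra.adjoin C
      {y | IsPairClass F ι ((q : C) ^ w) y ∨
        (∑ φ, |slope φ - (w : ℚ) / 2| = 4 * |slope φ0 - (w : ℚ) / 2| ∧
          IsWeilClass π F ι ((q : C) ^ w) y)} := by
  exact Pool.Agent.H91.TD.final p a q w hp hq E π hgen hint habs K v hv slope hslope φ0 hφ0 hdom C W F
    hF A ι s hcomm hadj Φ hΦ N m hN x hx

end Pool.Agent.Results.MP_0fca13_ag.DominantSlope
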